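import Mathlib
import Pool.Agent.Helper948.Erode.Reg

set_option autoImplicit false

namespace Pool.Agent.Helper948.Erode

/-- A nondeterministic counter machine with zero tests; `z t` is the register which must be zero
before transition `t`. -/
structure Net (S J T : Type) where
  src : T → S
  dst : T → S
  v : T → J → ℤ
  z : T → Option J

namespace Net

variable {S J T : Type} (N : Net S J T)

/-- there is a run of length `n` in which all registers stay at least `-R` and in which the zero
tests are correct up to `R` -/
def Live (R : ℤ) : ℕ → S → (J → ℤ) → Prop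
  | 0, _, x => ∀ j, -R ≤ x j
  | n + 1, s, x => (∀ j, -R ≤ x j) ∧ ∃ t, N.src t = s ∧ (∀ i, N.z t = some i → |x i| ≤ R) ∧
      Live R n (N.dst t) (x + N.v t)

theorem Live.nonneg {N : Net S J T} {R : ℤ} {n : ℕ} {s : S} {x : J → ℤ} (h : N.Live R n s x) :
    ∀ j, -R ≤ x j := by
  cases n with
  | zero => exact h
  | succ n => exact h.1

theorem Live.pred {N : Net S J T} {R : ℤ} {n : ℕ} {s : S} {x : J → ℤ}
    (h : N.Live R (n + 1) s x) : N.Live R n s x := by
  induction n generalizing s x with
  | zero => exact h.1
  | succ n ih =>
    obtain ⟨h1, t, h2, h3, h4⟩ := h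
    exact ⟨h1, t, h2, h3, ih h4⟩

theorem Live.mono {N : Net S J T} {R : ℤ} {n m : ℕ} {s : S} {x : J → ℤ}
    (h : N.Live R n s x) (hm : m ≤ n) : N.Live R m s x := by
  obtain ⟨k, rfl⟩ := Nat.exists_eq_add_of_le hm
  clear hm
  induction k with
  | zero => exact h
  | succ k ih => exact ih h.pred

/-- A set of configurations from which honest runs can be continued for ever. -/
structure Inv (Good : S → (J → ℤ) → Prop) : Prop where
  nonneg : ∀ s x, Good s x → ∀ j, 0 ≤ x j
  step : ∀ s x, Good s x → ∃ t, N.src t = s ∧ (∀ i, N.z t = some i → x i = 0) ∧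
    Good (N.dst t) (x + N.v t)

end Net

section scaled

variable {P J : Type} (M : DM P J)

/-- The scaled simulation of a register machine. Registers `inr b` carry the scale. -/
def scn : Net (Option P × Bool × Option Bool) (J ⊕ Bool) (P × Bool × Bool × Fin 3) where
  src
    | (p, b, _, 0) => (some p, b, none)
    | (p, b, z, 1) => (some p, b, some z)
    | (p, b, z, 2) => (some p, b, some z)
  dst
    | (p, b, z, 0) => (some p, b, some z)
    | (p, b, z, 1) => (some p, b, some z)
    | (p, b, z, 2) => (M.nxt p z, !b, none)
  v
    | (_, _, _, 0), _ => 0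
    | (p, _, z, 1), .inl j => M.vec p z j
    | (_, b, _, 1), .inr b' => if b' = b then -1 else 1
    | (_, _, _, 2), _ => 0
  z
    | (_, _, true, 0) => none
    | (p, _, false, 0) => some (.inl (M.reg p))
    | (_, _, _, 1) => none
    | (_, b, _, 2) => some (.inr b)

/-- vector of an iteration -/
def itv (p : P) (b z : Bool) : J ⊕ Bool → ℤ := (scn M).v (p, b, z, 1)

theorem itv_inl (p : P) (b z : Bool) (j : J) : itv M p b z (.inl j) = M.vec p z j := rfl
theorem itv_same (p : P) (b z : Bool) : itv M p b z (.inr b) = -1 := by
  change (if b = b then (-1 : ℤ) else 1) = -1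
  simp
theorem itv_diff (p : P) (b z : Bool) : itv M p b z (.inr (!b)) = 1 := by
  change (if (!b) = b then (-1 : ℤ) else 1) = 1
  simp

theorem live_loop {R : ℤ} {m : ℕ} (p : P) (b z : Bool) (L : ℕ) : ∀ x : J ⊕ Bool → ℤ,
    x (.inr b) + R < L → (scn M).Live R (m + L) (some p, b, some z) x →
    ∃ l : ℕ, |x (.inr b) - l| ≤ R ∧ (∀ j, -R ≤ (x + l • itv M p b z) j) ∧
      (scn M).Live R m (M.nxt p z, !b, none) (x + l • itv M p b z) := by
  induction L with
  | zero =>
    intro x hx h
    have := h.nonneg (.inr b)
    push_cast at hx
    omega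
  | succ L ih =>
    intro x hx h
    obtain ⟨h1, ⟨p', b', z', k⟩, h2, h3, h4⟩ := h
    fin_cases k
    · simp [scn] at h2
    · simp only [scn, Fin.mk_one, Prod.mk.injEq, Option.some.injEq] at h2
      obtain ⟨rfl, rfl, rfl⟩ := h2
      have h4' : (scn M).Live R (m + L) (some p', b', some z') (x + itv M p' b' z') := h4
      obtain ⟨l, a1, a2, a3⟩ := ih (x + itv M p' b' z') (by
        rw [Pi.add_apply, itv_same]
        push_cast at hx
        omega) h4'
      have e : x + itv M p' b' z' + l • itv M p' b' z' = x + (l + 1) • itv M p' b' z' := by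
        rw [add_smul, one_smul, add_assoc, add_comm (itv M p' b' z')]
      rw [e] at a2 a3
      refine ⟨l + 1, ?_, a2, a3⟩
      rw [Pi.add_apply, itv_same] at a1
      push_cast
      rw [show x (Sum.inr b') - ((l : ℤ) + 1) = x (Sum.inr b') + -1 - l by ring]
      exact a1
    · simp only [scn, Fin.reduceFinMk, Prod.mk.injEq, Option.some.injEq] at h2
      obtain ⟨rfl, rfl, rfl⟩ := h2
      have h4' : (scn M).Live R (m + L) (M.nxt p' z', !b', none) (x + 0) := h4
      refine ⟨0, ?_, ?_, ?_⟩
      · have := h3 (.inr b') (by cases z' <;> rfl)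
        simpa using this
      · simpa using h1
      · rw [add_zero] at h4'
        rw [zero_smul, add_zero]
        exact h4'.mono (by omega)

/-- Runs near a halting computation of the simulated machine are short. -/
theorem live_halt {V : ℤ} (hV : ∀ p z j, |M.vec p z j| ≤ V) (R : ℤ) (hR : 0 ≤ R) (k : ℕ) :
    ∀ (p : Option P) (c : J → ℤ), (∀ j, 0 ≤ c j) → (M.st^[k] (p, c)).1 = none →
    ∀ E : ℤ, 0 ≤ E → ∃ K0 : ℤ, ∀ K, K0 ≤ K → ∃ n, ∀ (b : Bool) (x : J ⊕ Bool → ℤ),
      (∀ j, |x (.inl j) - K * c j| ≤ E) → |x (.inr b) - K| ≤ E → |x (.inr (!b))| ≤ E →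
      ¬ (scn M).Live R n (p, b, none) x := by
  have hnone : ∀ (b : Bool) (x : J ⊕ Bool → ℤ), ¬ (scn M).Live R 1 (none, b, none) x := by
    rintro b x ⟨_, ⟨p', b', z', k⟩, h2, _⟩
    fin_cases k <;> simp [scn] at h2
  induction k with
  | zero =>
    intro p c _ hk E hE
    simp only [Function.iterate_zero, id_eq] at hk
    subst hk
    exact ⟨0, fun K _ => ⟨1, fun b x _ _ _ => hnone b x⟩⟩
  | succ k ih =>
    intro p c hc hk E hE
    rcases p with _ | p
    · exact ⟨0, fun K _ => ⟨1, fun b x _ _ _ => hnone b x⟩⟩
    · rw [Function.iterate_succ_apply] at hk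
      have hc' := M.st_nonneg (some p, c) hc
      have hV0 : 0 ≤ V := le_trans (abs_nonneg _) (hV p true (M.reg p))
      set E' : ℤ := E + (V + 1) * (E + R) with hE'
      have hE'0 : 0 ≤ E' := by positivity
      obtain ⟨K0, hK0⟩ := ih (M.st (some p, c)).1 (M.st (some p, c)).2 hc' hk E' hE'0
      refine ⟨max K0 (2 * (E + R) + 1), fun K hK => ?_⟩
      have hK1 : K0 ≤ K := le_trans (le_max_left _ _) hK
      have hK2 : 2 * (E + R) + 1 ≤ K := le_trans (le_max_right _ _) hK
      obtain ⟨n, hn⟩ := hK0 K hK1
      obtain ⟨L, hL⟩ : ∃ L : ℕ, K + E + R < L := ⟨(K + E + R + 1).toNat, by omega⟩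
      refine ⟨(n + L) + 1, ?_⟩
      intro b x hx1 hx2 hx3 hlive
      obtain ⟨h1, ⟨p', b', z, i⟩, h2, h3, h4⟩ := hlive
      have hi : i = 0 := by
        fin_cases i
        · rfl
        · simp [scn] at h2
        · simp [scn] at h2
      subst hi
      simp only [scn, Prod.mk.injEq, Option.some.injEq] at h2
      obtain ⟨rfl, rfl, -⟩ := h2
      have h4' : (scn M).Live R (n + L) (some p', b', some z) (x + 0) := h4
      rw [add_zero] at h4'
      rw [abs_le] at hx2 hx3
      obtain ⟨l, a1, a2, a3⟩ := live_loop M p' b' z L x (by omega) h4'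
      rw [abs_le] at a1
      have hx1' := fun j => abs_le.1 (hx1 j)
      have hl : |(l : ℤ) - K| ≤ E + R := by rw [abs_le]; constructor <;> omega
      have hbz : z = M.br p' c := by
        by_cases hc0 : 0 < c (M.reg p')
        · have e : M.br p' c = true := by simp [DM.br, hc0]
          rw [e]
          cases z with
          | true => rfl
          | false =>
            exfalso
            have h5 := h3 (.inl (M.reg p')) rfl
            rw [abs_le] at h5
            have h6 := hx1' (M.reg p')
            have h7 : K ≤ K * c (M.reg p') := by nlinarith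
            omega
        · have e : M.br p' c = false := by simp [DM.br, hc0]
          rw [e]
          cases z with
          | false => rfl
          | true =>
            exfalso
            have h5 := a2 (.inl (M.reg p'))
            rw [Pi.add_apply, Pi.smul_apply, itv_inl, M.hp', smul_eq_mul_nat] at h5
            have h6 := hx1' (M.reg p')
            have h7 : c (M.reg p') = 0 := by
              have := hc (M.reg p')
              omega
            rw [h7, mul_zero] at h6
            omega
      subst hbz
      have hl' := abs_le.1 hl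
      refine hn (!b') (x + l • itv M p' b' (M.br p' c)) ?_ ?_ ?_ a3
      · intro j
        rw [Pi.add_apply, Pi.smul_apply, itv_inl, smul_eq_mul_nat]
        change |x (Sum.inl j) + (l : ℤ) * M.vec p' (M.br p' c) j -
          K * (c j + M.vec p' (M.br p' c) j)| ≤ E'
        have e : x (Sum.inl j) + (l : ℤ) * M.vec p' (M.br p' c) j -
          K * (c j + M.vec p' (M.br p' c) j) = (x (Sum.inl j) - K * c j) +
            ((l : ℤ) - K) * M.vec p' (M.br p' c) j := by ring
        rw [e]
        refine le_trans (abs_add_le _ _) ?_
        rw [abs_mul]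
        have h8 : |(l : ℤ) - K| * |M.vec p' (M.br p' c) j| ≤ (E + R) * V :=
          mul_le_mul hl (hV _ _ _) (abs_nonneg _) (by omega)
        have h9 := hx1 j
        rw [hE']
        nlinarith
      · rw [Pi.add_apply, Pi.smul_apply, itv_diff, smul_eq_mul_nat, mul_one, abs_le]
        have : E + (E + R) ≤ E' := by rw [hE']; nlinarith
        constructor <;> omega
      · rw [Bool.not_not, Pi.add_apply, Pi.smul_apply, itv_same, smul_eq_mul_nat, abs_le]
        have : R ≤ E' := by rw [hE']; nlinarith
        constructor <;> omega
where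
  smul_eq_mul_nat {l : ℕ} {a : ℤ} : l • a = (l : ℤ) * a := by simp

/-- honest configurations -/
def good (s : Option P × Bool × Option Bool) (x : J ⊕ Bool → ℤ) : Prop :=
  match s with
  | (p, b, none) => ∃ (K : ℤ) (c : J → ℤ), 0 ≤ K ∧ (∀ j, 0 ≤ c j) ∧ ¬ M.Halts (p, c) ∧
      (∀ j, x (.inl j) = K * c j) ∧ x (.inr b) = K ∧ x (.inr (!b)) = 0
  | (none, _, some _) => False
  | (some p, b, some z) => ∃ (K l : ℤ) (c : J → ℤ), 0 ≤ l ∧ l ≤ K ∧ (∀ j, 0 ≤ c j) ∧
      ¬ M.Halts (some p, c) ∧ z = M.br p c ∧
      (∀ j, x (.inl j) = K * c j + l * M.vec p z j) ∧ x (.inr b) = K - l ∧ x (.inr (!b)) = l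

theorem good_inv : (scn M).Inv (good M) where
  nonneg := by
    rintro ⟨p, b, z⟩ x hx
    have key : ∀ b : Bool, 0 ≤ x (.inr b) → 0 ≤ x (.inr (!b)) → (∀ j, 0 ≤ x (.inl j)) →
        ∀ j, 0 ≤ x j := by
      intro b h1 h2 h3 j
      rcases j with j | b'
      · exact h3 j
      · by_cases h : b' = b
        · rw [h]; exact h1
        · have : b' = !b := by cases b <;> cases b' <;> simp_all
          rw [this]; exact h2
    rcases z with _ | z
    · obtain ⟨K, c, hK, hc, _, h1, h2, h3⟩ := hx
      refine key b (by omega) (by omega) ?_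
      intro j
      rw [h1]
      exact mul_nonneg hK (hc j)
    · rcases p with _ | p
      · exact hx.elim
      · obtain ⟨K, l, c, hl, hlK, hc, _, hz, h1, h2, h3⟩ := hx
        refine key b (by omega) (by omega) ?_
        intro j
        rw [h1]
        have hcj := hc j
        by_cases hb : 0 < c (M.reg p)
        · have e : M.br p c = true := by simp [DM.br, hb]
          rw [hz, e]
          by_cases hj : j = M.reg p
          · subst hj
            rw [M.hp']
            nlinarith
          · have := M.hp p j hj
            have h5 := mul_nonneg hl this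
            have h6 := mul_nonneg (le_trans hl hlK) hcj
            omega
        · have e : M.br p c = false := by simp [DM.br, hb]
          rw [hz, e]
          have := M.hz p j
          have h5 := mul_nonneg hl this
          have h6 := mul_nonneg (le_trans hl hlK) hcj
          omega
  step := by
    rintro ⟨p, b, z⟩ x hx
    rcases z with _ | z
    · obtain ⟨K, c, hK, hc, hh, h1, h2, h3⟩ := hx
      rcases p with _ | p
      · exact absurd ⟨0, rfl⟩ hh
      · refine ⟨(p, b, M.br p c, 0), rfl, ?_, ?_⟩
        · intro i hi
          by_cases hb : 0 < c (M.reg p)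
          · have e : M.br p c = true := by simp [DM.br, hb]
            rw [e] at hi
            simp [scn] at hi
          · have e : M.br p c = false := by simp [DM.br, hb]
            rw [e] at hi
            simp only [scn, Option.some.injEq] at hi
            rw [← hi, h1]
            have : c (M.reg p) = 0 := by
              have := hc (M.reg p)
              omega
            rw [this, mul_zero]
        · change good M (some p, b, some (M.br p c)) (x + 0)
          rw [add_zero]
          refine ⟨K, 0, c, le_rfl, hK, hc, hh, rfl, ?_, ?_, h3⟩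
          · intro j
            rw [h1]; ring
          · rw [h2]; ring
    · rcases p with _ | p
      · exact hx.elim
      · obtain ⟨K, l, c, hl, hlK, hc, hh, hz, h1, h2, h3⟩ := hx
        by_cases hlt : l < K
        · refine ⟨(p, b, z, 1), rfl, ?_, ?_⟩
          · intro i hi
            simp [scn] at hi
          · change good M (some p, b, some z) (x + itv M p b z)
            refine ⟨K, l + 1, c, by omega, by omega, hc, hh, hz, ?_, ?_, ?_⟩
            · intro j
              rw [Pi.add_apply, h1, itv_inl]; ring
            · rw [Pi.add_apply, h2, itv_same]; ring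
            · rw [Pi.add_apply, h3, itv_diff]
        · obtain rfl : l = K := by omega
          refine ⟨(p, b, z, 2), rfl, ?_, ?_⟩
          · intro i hi
            simp only [scn, Option.some.injEq] at hi
            rw [← hi, h2]; ring
          · change good M (M.nxt p z, !b, none) (x + 0)
            rw [add_zero]
            refine ⟨l, c + M.vec p z, hl, ?_, ?_, ?_, ?_, ?_⟩
            · subst hz
              exact M.st_nonneg (some p, c) hc
            · subst hz
              rw [← M.halts_st] at hh
              exact hh
            · intro j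
              rw [h1, Pi.add_apply]; ring
            · exact h3
            · rw [Bool.not_not, h2]; ring

end scaled

end Pool.Agent.Helper948.Erode
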