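import Mathlib
import Pool.Agent.Helper948.Erode.Net

set_option autoImplicit false

namespace Pool.Agent.Helper948.Erode

/-- A multi-species monotone system: species `Q`, displacement symbols `D`. A species `q` is alive
at `x` at time `t + 1` if for some clause `C` of `q` all members `(d, q')` of `C` are such that
`q'` is alive at `x + disp d` at time `t`. -/
def Alive {Q D G : Type} [Add G] (cl : Q → Set (D × Q) → Prop) (disp : D → G)
    (I : Q → G → Prop) : ℕ → Q → G → Prop
  | 0, q, x => I q x
  | t + 1, q, x => ∃ C, cl q C ∧ ∀ o ∈ C, Alive cl disp I t o.2 (x + disp o.1)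

/-- species of the game -/
inductive Sp (S J : Type) : Type
  | P (c : Bool) : Sp S J
  | sim (c : Bool) (s : S) : Sp S J
  | R (c m : Bool) (f : Option J) : Sp S J
  | W (c m : Bool) (f : Option J) : Sp S J

/-- displacement symbols of the game -/
inductive Ds (J T : Type) : Type
  | z : Ds J T
  | inc (c : Bool) : Ds J T
  | dec (c : Bool) (j : J) : Ds J T
  | e (s : Bool) : Ds J T
  | mv (c : Bool) (t : T) : Ds J T

instance {S J : Type} [Finite S] [Finite J] : Finite (Sp S J) := by
  refine Finite.of_injective (β := (Fin 4 × Bool × Bool × Option S × Option J))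
    (fun x => match x with
    | .P c => (0, c, c, none, none)
    | .sim c s => (1, c, c, some s, none)
    | .R c m f => (2, c, m, none, f)
    | .W c m f => (3, c, m, none, f)) ?_
  intro x y h
  cases x <;> cases y <;> simp_all

instance {J T : Type} [Finite J] [Finite T] : Finite (Ds J T) := by
  refine Finite.of_injective (β := (Fin 5 × Bool × Option J × Option T))
    (fun x => match x with
    | .z => (0, true, none, none)
    | .inc c => (1, c, none, none)
    | .dec c j => (2, c, some j, none)
    | .e c => (3, c, none, none)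
    | .mv c t => (4, c, none, some t)) ?_
  intro x y h
  cases x <;> cases y <;> simp_all

section game

variable {S J T : Type} [DecidableEq J] (N : Net S J T) (s0 : S) (κ : J)

/-- displacements of the game -/
def disp : Ds J T → (Option (Bool × J) → ℤ)
  | .z => 0
  | .inc c => Pi.single (some (c, κ)) 1
  | .dec c j => -Pi.single (some (c, j)) 1
  | .e s => Pi.single none (if s then 1 else -1)
  | .mv c t => fun i => match i with
    | none => 0
    | some (c', j) => if c' = c then N.v t j else 0

/-- clauses of the game -/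
inductive Cl : Sp S J → Set (Ds J T × Sp S J) → Prop
  | go (c : Bool) : Cl (.P c) {(.inc c, .P c), (.z, .sim c s0)}
  | ab (c : Bool) : Cl (.P c) {(.z, .R c true none), (.z, .R c false none)}
  | mv (c : Bool) (t : T) : Cl (.sim c (N.src t)) ({(.mv c t, .sim c (N.dst t)),
      (.z, .R c false none)} ∪ {o | ∃ i, N.z t = some i ∧ o = (.z, .R c false (some i))})
  | aq (c : Bool) (s : S) : Cl (.sim c s) {(.z, .R c true none), (.z, .R c false none)}
  | dec (c m : Bool) (f : Option J) (j : J) (h : f ≠ some j) : Cl (.R c m f)
      {(.dec c j, .W c m f), (.dec c j, if m then .W c false f else .R c false f)}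
  | done (c : Bool) (f : Option J) : Cl (.R c false f) {(.z, .P true), (.z, .P false)}
  | donem (c : Bool) (f : Option J) : Cl (.R c true f)
      {(.e true, .P true), (.e true, .P false), (.e false, .P true), (.e false, .P false)}
  | w (c m : Bool) (f : Option J) : Cl (.W c m f) {(.z, .R c m f)}

theorem Cl.nonempty {q : Sp S J} {C : Set (Ds J T × Sp S J)} (h : Cl N s0 q C) :
    C.Nonempty := by
  cases h <;> simp

theorem disp_z (x : Option (Bool × J) → ℤ) : x + disp N κ .z = x := by
  simp [disp]

theorem disp_dec_same (c : Bool) (j : J) : disp N κ (.dec c j) (some (c, j)) = -1 := by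
  simp [disp]

theorem disp_dec_ne (c : Bool) (j : J) (i : Option (Bool × J)) (h : i ≠ some (c, j)) :
    disp N κ (.dec c j) i = 0 := by
  simp [disp, Pi.single_eq_of_ne h]

theorem disp_dec_nonpos (c : Bool) (j : J) (i : Option (Bool × J)) :
    disp N κ (.dec c j) i ≤ 0 := by
  by_cases h : i = some (c, j)
  · subst h; rw [disp_dec_same]; norm_num
  · rw [disp_dec_ne N κ c j i h]

theorem disp_e_some (s : Bool) (i : Bool × J) : disp N κ (.e s) (some i) = 0 := by
  simp [disp]

theorem disp_e_none (s : Bool) : disp N κ (.e s) none = if s then 1 else -1 := by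
  simp [disp]

/-- aliveness in the game started from a cube -/
abbrev A (R : ℤ) : ℕ → Sp S J → (Option (Bool × J) → ℤ) → Prop :=
  Alive (Cl N s0) (disp N κ) (fun _ x => ∀ i, |x i| ≤ R)

/-- the active copy -/
def cpy : Sp S J → Bool
  | .P c => c
  | .sim c _ => c
  | .R c _ _ => c
  | .W c _ _ => c

variable {N s0 κ} {R : ℤ}

theorem dead_inactive (t : ℕ) : ∀ (q : Sp S J) (x : Option (Bool × J) → ℤ) (j : J),
    R < |x (some (!(cpy q), j))| → ¬ A N s0 κ R t q x := by
  induction t with
  | zero =>
    intro q x j hx h
    have := h (some (!(cpy q), j))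
    omega
  | succ t ih =>
    rintro q x j hx ⟨C, hC, h⟩
    cases hC with
    | go c =>
      exact ih (.sim c s0) x j hx (by simpa [disp_z] using h (.z, .sim c s0) (by simp))
    | ab c =>
      exact ih (.R c true none) x j hx
        (by simpa [disp_z] using h (.z, .R c true none) (by simp))
    | mv c t' =>
      exact ih (.R c false none) x j hx
        (by simpa [disp_z] using h (.z, .R c false none) (by simp))
    | aq c s =>
      exact ih (.R c true none) x j hx
        (by simpa [disp_z] using h (.z, .R c true none) (by simp))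
    | dec c m f j' hf =>
      refine ih (.W c m f) (x + disp N κ (.dec c j')) j ?_ (h (.dec c j', .W c m f) (by simp))
      have e : (x + disp N κ (.dec c j')) (some (!(cpy (Sp.W (S := S) c m f)), j)) =
          x (some (!(cpy (Sp.R (S := S) c m f)), j)) := by
        rw [Pi.add_apply, disp_dec_ne, add_zero]
        · rfl
        · simp [cpy]
      rw [e]; exact hx
    | done c f => 
      cases c
      · exact ih (.P false) x j hx (by simpa [disp_z] using h (.z, .P false) (by simp))
      · exact ih (.P true) x j hx (by simpa [disp_z] using h (.z, .P true) (by simp))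
    | donem c f =>
      have e : ∀ i, (x + disp N κ (.e true)) (some i) = x (some i) := by
        intro i
        rw [Pi.add_apply, disp_e_some, add_zero]
      cases c
      · exact ih (.P false) _ j (by rw [e]; exact hx) (h (.e true, .P false) (by simp))
      · exact ih (.P true) _ j (by rw [e]; exact hx) (h (.e true, .P true) (by simp))
    | w c m f =>
      exact ih (.R c m f) x j hx (by simpa [disp_z] using h (.z, .R c m f) (by simp))

theorem dead_e (t : ℕ) : ∀ (q : Sp S J) (x : Option (Bool × J) → ℤ),
    R < |x none| → ¬ A N s0 κ R t q x := by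
  induction t with
  | zero =>
    intro q x hx h
    have := h none
    omega
  | succ t ih =>
    rintro q x hx ⟨C, hC, h⟩
    cases hC with
    | go c =>
      exact ih (.sim c s0) x hx (by simpa [disp_z] using h (.z, .sim c s0) (by simp))
    | ab c =>
      exact ih (.R c true none) x hx
        (by simpa [disp_z] using h (.z, .R c true none) (by simp))
    | mv c t' =>
      exact ih (.R c false none) x hx
        (by simpa [disp_z] using h (.z, .R c false none) (by simp))
    | aq c s =>
      exact ih (.R c true none) x hx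
        (by simpa [disp_z] using h (.z, .R c true none) (by simp))
    | dec c m f j' hf =>
      refine ih (.W c m f) (x + disp N κ (.dec c j')) ?_ (h (.dec c j', .W c m f) (by simp))
      rw [Pi.add_apply, disp_dec_ne, add_zero]
      · exact hx
      · simp
    | done c f =>
      exact ih (.P false) x hx (by simpa [disp_z] using h (.z, .P false) (by simp))
    | donem c f =>
      by_cases h0 : 0 ≤ x none
      · refine ih (.P true) _ ?_ (h (.e true, .P true) (by simp))
        rw [Pi.add_apply, disp_e_none, if_pos rfl, abs_of_nonneg (by omega)]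
        rw [abs_of_nonneg h0] at hx
        omega
      · refine ih (.P true) _ ?_ (h (.e false, .P true) (by simp))
        rw [Pi.add_apply, disp_e_none, if_neg (by simp), abs_of_neg (by omega)]
        rw [abs_of_neg (by omega)] at hx
        omega
    | w c m f =>
      exact ih (.R c m f) x hx (by simpa [disp_z] using h (.z, .R c m f) (by simp))

theorem dead_neg_reset (hR : 0 ≤ R) (t : ℕ) :
    ∀ (c m : Bool) (f : Option J) (x : Option (Bool × J) → ℤ) (j : J),
    x (some (c, j)) < -R → ¬ A N s0 κ R t (.R c m f) x ∧ ¬ A N s0 κ R t (.W c m f) x := by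
  induction t with
  | zero =>
    intro c m f x j hx
    constructor <;>
    · intro h
      have := abs_le.1 (h (some (c, j)))
      omega
  | succ t ih =>
    intro c m f x j hx
    constructor
    · rintro ⟨C, hC, h⟩
      cases hC with
      | dec _ _ _ j' hf =>
        refine (ih c m f (x + disp N κ (.dec c j')) j ?_).2 (h (.dec c j', .W c m f) (by simp))
        rw [Pi.add_apply]
        have := disp_dec_nonpos N κ c j' (some (c, j))
        omega
      | done _ f =>
        have h1 := dead_inactive (N := N) (s0 := s0) (κ := κ) (R := R) t (.P (!c)) x j (by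
          simp only [cpy, Bool.not_not]
          rw [abs_of_neg (by omega)]
          omega)
        cases c
        · exact h1 (by simpa [disp_z] using h (.z, .P true) (by simp))
        · exact h1 (by simpa [disp_z] using h (.z, .P false) (by simp))
      | donem _ f =>
        have h1 := dead_inactive (N := N) (s0 := s0) (κ := κ) (R := R) t (.P (!c))
          (x + disp N κ (.e true)) j (by
          simp only [cpy, Bool.not_not]
          rw [Pi.add_apply, disp_e_some, add_zero, abs_of_neg (by omega)]
          omega)
        cases c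
        · exact h1 (h (.e true, .P true) (by simp))
        · exact h1 (h (.e true, .P false) (by simp))
    · rintro ⟨C, hC, h⟩
      cases hC with
      | w _ _ _ =>
      exact (ih c m f x j hx).1 (by simpa [disp_z] using h (.z, .R c m f) (by simp))

theorem dead_neg_sim (hR : 0 ≤ R) (t : ℕ) (c : Bool) (s : S) (x : Option (Bool × J) → ℤ) (j : J)
    (hx : x (some (c, j)) < -R) : ¬ A N s0 κ R t (.sim c s) x := by
  cases t with
  | zero =>
    intro h
    have := abs_le.1 (h (some (c, j)))
    omega
  | succ t =>
    rintro ⟨C, hC, h⟩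
    cases hC with
    | mv _ t' =>
      exact (dead_neg_reset hR t c false none x j hx).1
        (by simpa [disp_z] using h (.z, .R c false none) (by simp))
    | aq _ _ =>
      exact (dead_neg_reset hR t c false none x j hx).1
        (by simpa [disp_z] using h (.z, .R c false none) (by simp))

theorem dead_frozen (t : ℕ) :
    ∀ (c m : Bool) (i : J) (x : Option (Bool × J) → ℤ),
    R < |x (some (c, i))| → ¬ A N s0 κ R t (.R c m (some i)) x ∧
      ¬ A N s0 κ R t (.W c m (some i)) x := by
  induction t with
  | zero =>
    intro c m i x hx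
    constructor <;>
    · intro h
      have := h (some (c, i))
      omega
  | succ t ih =>
    intro c m i x hx
    constructor
    · rintro ⟨C, hC, h⟩
      cases hC with
      | dec _ _ _ j' hf =>
        refine (ih c m i (x + disp N κ (.dec c j')) ?_).2 (h (.dec c j', .W c m _) (by simp))
        rw [Pi.add_apply, disp_dec_ne, add_zero]
        · exact hx
        · simp only [ne_eq, Option.some.injEq, Prod.mk.injEq, true_and]
          intro he
          exact hf (by rw [he])
      | done _ f =>
        have h1 := dead_inactive (N := N) (s0 := s0) (κ := κ) (R := R) t (.P (!c)) x i (by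
          simp only [cpy, Bool.not_not]
          exact hx)
        cases c
        · exact h1 (by simpa [disp_z] using h (.z, .P true) (by simp))
        · exact h1 (by simpa [disp_z] using h (.z, .P false) (by simp))
      | donem _ f =>
        have h1 := dead_inactive (N := N) (s0 := s0) (κ := κ) (R := R) t (.P (!c))
          (x + disp N κ (.e true)) i (by
          simp only [cpy, Bool.not_not]
          rw [Pi.add_apply, disp_e_some, add_zero]
          exact hx)
        cases c
        · exact h1 (h (.e true, .P true) (by simp))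
        · exact h1 (h (.e true, .P false) (by simp))
    · rintro ⟨C, hC, h⟩
      cases hC with
      | w _ _ _ =>
      exact (ih c m i x hx).1 (by simpa [disp_z] using h (.z, .R c m _) (by simp))

variable [Fintype J]

/-- the sum of the registers of a copy -/
def sm (c : Bool) (x : Option (Bool × J) → ℤ) : ℤ := ∑ j, x (some (c, j))

theorem sm_dec (c : Bool) (x : Option (Bool × J) → ℤ) (j : J) :
    sm c (x + disp N κ (.dec c j)) = sm c x - 1 := by
  unfold sm
  simp only [Pi.add_apply]
  rw [Finset.sum_add_distrib]
  have : ∑ i, disp N κ (.dec c j) (some (c, i)) = -1 := by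
    rw [Finset.sum_eq_single j]
    · exact disp_dec_same N κ c j
    · intro i _ hi
      apply disp_dec_ne
      simp [hi]
    · simp
  rw [this]; ring

theorem sm_e (c s : Bool) (x : Option (Bool × J) → ℤ) :
    sm c (x + disp N κ (.e s)) = sm c x := by
  unfold sm
  apply Finset.sum_congr rfl
  intro i _
  rw [Pi.add_apply, disp_e_some, add_zero]

theorem exists_big (c : Bool) (x : Option (Bool × J) → ℤ)
    (h : Fintype.card J * R < sm c x) : ∃ j, R < x (some (c, j)) := by
  by_contra hc
  push Not at hc
  have : sm c x ≤ Fintype.card J * R := by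
    unfold sm
    calc ∑ j, x (some (c, j)) ≤ ∑ _j : J, R := Finset.sum_le_sum (fun j _ => hc j)
      _ = Fintype.card J * R := by simp
  omega

theorem exists_small (c : Bool) (x : Option (Bool × J) → ℤ)
    (h : sm c x + Fintype.card J * R < 0) : ∃ j, x (some (c, j)) < -R := by
  by_contra hc
  push Not at hc
  have : -(Fintype.card J * R) ≤ sm c x := by
    unfold sm
    calc -(Fintype.card J * R) = ∑ _j : J, -R := by simp
      _ ≤ ∑ j, x (some (c, j)) := Finset.sum_le_sum (fun j _ => hc j)
  omega

theorem dead_slow (t : ℕ) :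
    ∀ (c m : Bool) (f : Option J) (x : Option (Bool × J) → ℤ),
    ((t : ℤ) + 1 < 2 * (sm c x - Fintype.card J * R) → ¬ A N s0 κ R t (.R c m f) x) ∧
      ((t : ℤ) < 2 * (sm c x - Fintype.card J * R) → ¬ A N s0 κ R t (.W c m f) x) := by
  induction t with
  | zero =>
    intro c m f x
    have key : (0 : ℤ) < 2 * (sm c x - Fintype.card J * R) →
        ¬ (∀ i, |x i| ≤ R) := by
      intro h1 h
      obtain ⟨j, hj⟩ := exists_big (R := R) c x (by omega)
      have := abs_le.1 (h (some (c, j)))
      omega
    constructor
    · intro h1 h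
      exact key (by push_cast at h1; omega) h
    · intro h1 h
      exact key (by push_cast at h1; omega) h
  | succ t ih =>
    intro c m f x
    constructor
    · rintro h0 ⟨C, hC, h⟩
      push_cast at h0
      obtain ⟨j0, hj0⟩ := exists_big (R := R) c x (by omega)
      cases hC with
      | dec _ _ _ j' hf =>
        refine (ih c m f (x + disp N κ (.dec c j'))).2 ?_ (h (.dec c j', .W c m f) (by simp))
        rw [sm_dec]
        omega
      | done _ f =>
        have h1 := dead_inactive (N := N) (s0 := s0) (κ := κ) (R := R) t (.P (!c)) x j0 (by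
          simp only [cpy, Bool.not_not]
          exact lt_of_lt_of_le hj0 (le_abs_self _))
        cases c
        · exact h1 (by simpa [disp_z] using h (.z, .P true) (by simp))
        · exact h1 (by simpa [disp_z] using h (.z, .P false) (by simp))
      | donem _ f =>
        have h1 := dead_inactive (N := N) (s0 := s0) (κ := κ) (R := R) t (.P (!c))
          (x + disp N κ (.e true)) j0 (by
          simp only [cpy, Bool.not_not]
          rw [Pi.add_apply, disp_e_some, add_zero]
          exact lt_of_lt_of_le hj0 (le_abs_self _))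
        cases c
        · exact h1 (h (.e true, .P true) (by simp))
        · exact h1 (h (.e true, .P false) (by simp))
    · rintro h0 ⟨C, hC, h⟩
      push_cast at h0
      cases hC with
      | w _ _ _ =>
      exact (ih c m f x).1 h0 (by simpa [disp_z] using h (.z, .R c m f) (by simp))

/-- all home positions with `|e| ≥ L` are dead for remaining time at least `τ` -/
def HomeL (N : Net S J T) (s0 : S) (κ : J) (R L : ℤ) (τ : ℕ) : Prop :=
  ∀ (c : Bool) (t : ℕ) (x : Option (Bool × J) → ℤ), τ ≤ t → (∀ i, |x i| ≤ R) → L ≤ |x none| →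
    ¬ A N s0 κ R t (.P c) x

theorem done_dead {L : ℤ} {τ : ℕ} (hH : HomeL N s0 κ R L τ) (t : ℕ)
    (ht : τ ≤ t) (x : Option (Bool × J) → ℤ) (hx : L ≤ |x none|) :
    ∃ c, ¬ A N s0 κ R t (.P c) x := by
  by_cases hb : ∀ i, |x i| ≤ R
  · exact ⟨true, hH true t x ht hb hx⟩
  · push Not at hb
    obtain ⟨i, hi⟩ := hb
    rcases i with _ | ⟨c, j⟩
    · exact ⟨true, dead_e t _ x hi⟩
    · exact ⟨!c, dead_inactive t (.P (!c)) x j (by simpa [cpy] using hi)⟩

theorem dead_fast (hR : 0 ≤ R) {τ : ℕ} (hH : HomeL N s0 κ R 0 τ) (n : ℕ) :
    ∀ (c : Bool) (f : Option J) (t : ℕ) (x : Option (Bool × J) → ℤ),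
    sm c x + Fintype.card J * R ≤ n → τ + n + 1 ≤ t → ¬ A N s0 κ R t (.R c false f) x := by
  induction n with
  | zero =>
    rintro c f t x hx ht ha
    obtain ⟨t, rfl⟩ : ∃ t', t = t' + 1 := ⟨t - 1, by omega⟩
    obtain ⟨C, hC, h⟩ := ha
    cases hC with
    | dec _ _ _ j' hf =>
      obtain ⟨j, hj⟩ := exists_small (R := R) c (x + disp N κ (.dec c j')) (by
        rw [sm_dec]; push_cast at hx; omega)
      exact (dead_neg_reset hR t c false f _ j hj).2 (h (.dec c j', .W c false f) (by simp))
    | done _ f =>
      obtain ⟨c', h1⟩ := done_dead hH t (by omega) x (abs_nonneg _)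
      cases c'
      · exact h1 (by simpa [disp_z] using h (.z, .P false) (by simp))
      · exact h1 (by simpa [disp_z] using h (.z, .P true) (by simp))
  | succ n ih =>
    rintro c f t x hx ht ha
    obtain ⟨t, rfl⟩ : ∃ t', t = t' + 1 := ⟨t - 1, by omega⟩
    obtain ⟨C, hC, h⟩ := ha
    cases hC with
    | dec _ _ _ j' hf =>
      refine ih c f t (x + disp N κ (.dec c j')) ?_ (by omega)
        (h (.dec c j', .R c false f) (by simp))
      rw [sm_dec]; push_cast at hx; omega
    | done _ f =>
      obtain ⟨c', h1⟩ := done_dead hH t (by omega) x (abs_nonneg _)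
      cases c'
      · exact h1 (by simpa [disp_z] using h (.z, .P false) (by simp))
      · exact h1 (by simpa [disp_z] using h (.z, .P true) (by simp))

theorem dead_fastC (hR : 0 ≤ R) {τ : ℕ} (hH : HomeL N s0 κ R 0 τ) (n : ℕ)
    (c m : Bool) (f : Option J) (t : ℕ) (x : Option (Bool × J) → ℤ)
    (hx : sm c x + Fintype.card J * R ≤ n) (ht : τ + n + 3 ≤ t) :
    ¬ A N s0 κ R t (.R c m f) x := by
  cases m with
  | false => exact dead_fast hR hH n c f t x hx (by omega)
  | true =>
    intro ha
    obtain ⟨t, rfl⟩ : ∃ t', t = t' + 2 := ⟨t - 2, by omega⟩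
    obtain ⟨C, hC, h⟩ := ha
    cases hC with
    | dec _ _ _ j' hf =>
      have h1 := h (.dec c j', .W c false f) (by simp)
      obtain ⟨C, hC, h⟩ := h1
      cases hC with
      | w _ _ _ =>
        refine dead_fast hR hH n c f t (x + disp N κ (.dec c j')) ?_ (by omega)
          (by simpa [disp_z] using h (.z, .R c false f) (by simp))
        rw [sm_dec]; omega
    | donem _ f =>
      obtain ⟨c', h1⟩ := done_dead hH (t + 1) (by omega) (x + disp N κ (.e true)) (abs_nonneg _)
      cases c'
      · exact h1 (h (.e true, .P false) (by simp))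
      · exact h1 (h (.e true, .P true) (by simp))

/-- If home positions are dead after some time, so are all positions. -/
theorem all_dead (hR : 0 ≤ R) {τ : ℕ} (hH : HomeL N s0 κ R 0 τ) :
    ∃ τ' : ℕ, ∀ t, τ' ≤ t → ∀ q x, ¬ A N s0 κ R t q x := by
  obtain ⟨r, hr⟩ : ∃ r : ℕ, (r : ℤ) = Fintype.card J * R := ⟨(Fintype.card J * R).toNat, by
    have : 0 ≤ Fintype.card J * R := by positivity
    omega⟩
  have hreset : ∀ t, 2 * τ + 4 * r + 20 ≤ t → ∀ c m f x, ¬ A N s0 κ R t (.R c m f) x := by
    intro t ht c m f x
    by_cases h1 : (t : ℤ) + 1 < 2 * (sm c x - Fintype.card J * R)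
    · exact (dead_slow t c m f x).1 h1
    · rw [← hr] at h1
      exact dead_fastC hR hH ((t + 1) / 2 + 2 * r + 1) c m f t x (by
        rw [← hr]; push_cast; omega) (by omega)
  have hsim : ∀ t, 2 * τ + 4 * r + 21 ≤ t → ∀ c s x, ¬ A N s0 κ R t (.sim c s) x := by
    intro t ht c s x ha
    obtain ⟨t, rfl⟩ : ∃ t', t = t' + 1 := ⟨t - 1, by omega⟩
    obtain ⟨C, hC, h⟩ := ha
    cases hC with
    | mv _ t' =>
      exact hreset t (by omega) c false none x
        (by simpa [disp_z] using h (.z, .R c false none) (by simp))
    | aq _ _ =>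
      exact hreset t (by omega) c false none x
        (by simpa [disp_z] using h (.z, .R c false none) (by simp))
  refine ⟨2 * τ + 4 * r + 22, ?_⟩
  intro t ht q x
  cases q with
  | R c m f => exact hreset t (by omega) c m f x
  | sim c s => exact hsim t (by omega) c s x
  | W c m f =>
    intro ha
    obtain ⟨t, rfl⟩ : ∃ t', t = t' + 1 := ⟨t - 1, by omega⟩
    obtain ⟨C, hC, h⟩ := ha
    cases hC with
    | w _ _ _ =>
      exact hreset t (by omega) c m f x
        (by simpa [disp_z] using h (.z, .R c m f) (by simp))
  | P c =>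
    intro ha
    obtain ⟨t, rfl⟩ : ∃ t', t = t' + 1 := ⟨t - 1, by omega⟩
    obtain ⟨C, hC, h⟩ := ha
    cases hC with
    | go _ =>
      exact hsim t (by omega) c s0 x
        (by simpa [disp_z] using h (.z, .sim c s0) (by simp))
    | ab _ =>
      exact hreset t (by omega) c false none x
        (by simpa [disp_z] using h (.z, .R c false none) (by simp))

theorem done_deadm {L : ℤ} (hL : 0 ≤ L) {τ : ℕ} (hH : HomeL N s0 κ R (L + 1) τ) (t : ℕ)
    (ht : τ ≤ t) (x : Option (Bool × J) → ℤ) (hx : L ≤ |x none|) :
    ∃ s c, ¬ A N s0 κ R t (.P c) (x + disp N κ (.e s)) := by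
  by_cases h0 : 0 ≤ x none
  · refine ⟨true, done_dead hH t ht _ ?_⟩
    rw [Pi.add_apply, disp_e_none, if_pos rfl, abs_of_nonneg (by omega)]
    rw [abs_of_nonneg h0] at hx
    omega
  · refine ⟨false, done_dead hH t ht _ ?_⟩
    rw [Pi.add_apply, disp_e_none, if_neg (by simp), abs_of_neg (by omega)]
    rw [abs_of_neg (by omega)] at hx
    omega

theorem dead_charged (hR : 0 ≤ R) {L : ℤ} (hL : 0 ≤ L) {τ : ℕ} (hH : HomeL N s0 κ R (L + 1) τ)
    (n : ℕ) : ∀ (c : Bool) (f : Option J) (t : ℕ) (x : Option (Bool × J) → ℤ),
    sm c x + Fintype.card J * R ≤ n → L ≤ |x none| → τ + 2 * n + 1 ≤ t →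
    ¬ A N s0 κ R t (.R c true f) x := by
  have hdone : ∀ (c : Bool) (f : Option J) (t : ℕ) (x : Option (Bool × J) → ℤ),
      L ≤ |x none| → τ ≤ t → ¬ (∀ o ∈ ({(.e true, .P true), (.e true, .P false),
        (.e false, .P true), (.e false, .P false)} : Set (Ds J T × Sp S J)),
          A N s0 κ R t o.2 (x + disp N κ o.1)) := by
    intro c f t x hx ht h
    obtain ⟨s, c', h1⟩ := done_deadm hL hH t ht x hx
    cases s <;> cases c'
    · exact h1 (h (.e false, .P false) (by simp))
    · exact h1 (h (.e false, .P true) (by simp))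
    · exact h1 (h (.e true, .P false) (by simp))
    · exact h1 (h (.e true, .P true) (by simp))
  have he : ∀ (c : Bool) (j : J) (x : Option (Bool × J) → ℤ),
      (x + disp N κ (.dec c j)) none = x none := by
    intro c j x
    rw [Pi.add_apply, disp_dec_ne, add_zero]
    simp
  induction n with
  | zero =>
    rintro c f t x hx hx' ht ha
    obtain ⟨t, rfl⟩ : ∃ t', t = t' + 1 := ⟨t - 1, by omega⟩
    obtain ⟨C, hC, h⟩ := ha
    cases hC with
    | dec _ _ _ j' hf =>
      obtain ⟨j, hj⟩ := exists_small (R := R) c (x + disp N κ (.dec c j')) (by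
        rw [sm_dec]; push_cast at hx; omega)
      exact (dead_neg_reset hR t c true f _ j hj).2 (h (.dec c j', .W c true f) (by simp))
    | donem _ f =>
      exact hdone c f t x hx' (by omega) h
  | succ n ih =>
    rintro c f t x hx hx' ht ha
    obtain ⟨t, rfl⟩ : ∃ t', t = t' + 2 := ⟨t - 2, by omega⟩
    obtain ⟨C, hC, h⟩ := ha
    cases hC with
    | dec _ _ _ j' hf =>
      have h1 := h (.dec c j', .W c true f) (by simp)
      obtain ⟨C, hC, h⟩ := h1
      cases hC with
      | w _ _ _ =>
        refine ih c f t (x + disp N κ (.dec c j')) ?_ (by rw [he]; exact hx') (by omega)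
          (by simpa [disp_z] using h (.z, .R c true f) (by simp))
        rw [sm_dec]; push_cast at hx; omega
    | donem _ f =>
      exact hdone c f (t + 1) x hx' (by omega) h

/-- the registers of a copy -/
def prj (c : Bool) (x : Option (Bool × J) → ℤ) : J → ℤ := fun j => x (some (c, j))

theorem prj_tr (c : Bool) (t : T) (x : Option (Bool × J) → ℤ) :
    prj c (x + disp N κ (.mv c t)) = prj c x + N.v t := by
  funext j
  simp [prj, disp]

theorem tr_none (c : Bool) (t : T) (x : Option (Bool × J) → ℤ) :
    (x + disp N κ (.mv c t)) none = x none := by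
  simp [disp]

theorem sm_eq (c : Bool) (x : Option (Bool × J) → ℤ) : sm c x = ∑ j, prj c x j := rfl

theorem dead_sim (hR : 0 ≤ R) {L : ℤ} (hL : 0 ≤ L) {τ : ℕ} (hH : HomeL N s0 κ R (L + 1) τ)
    {V : ℕ} (hV : ∀ t, ∑ j, N.v t j ≤ V) (n : ℕ) :
    ∀ (B : ℕ) (c : Bool) (s : S) (t : ℕ) (x : Option (Bool × J) → ℤ),
    ¬ N.Live R n s (prj c x) → sm c x + Fintype.card J * R ≤ B → L ≤ |x none| →
    τ + n + 2 * (B + n * V) + 2 ≤ t → ¬ A N s0 κ R t (.sim c s) x := by
  induction n with
  | zero =>
    intro B c s t x hlive _ _ _
    simp only [Net.Live, not_forall, not_le] at hlive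
    obtain ⟨j, hj⟩ := hlive
    exact dead_neg_sim hR t c s x j hj
  | succ n ih =>
    intro B c s t x hlive hB hx ht ha
    by_cases hneg : ∀ j, -R ≤ prj c x j
    · obtain ⟨t, rfl⟩ : ∃ t', t = t' + 1 := ⟨t - 1, by omega⟩
      have e1 : (n + 1) * V = n * V + V := by ring
      rw [e1] at ht
      obtain ⟨C, hC, h⟩ := ha
      cases hC with
      | mv _ t' =>
        by_cases hz : ∀ i, N.z t' = some i → |prj c x i| ≤ R
        · refine ih (B + V) c (N.dst t') t (x + disp N κ (.mv c t')) ?_ ?_ ?_ ?_
            (h (.mv c t', .sim c (N.dst t')) (by simp))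
          · rw [prj_tr]
            intro h1
            exact hlive ⟨hneg, t', rfl, hz, h1⟩
          · rw [sm_eq, prj_tr]
            simp only [Pi.add_apply]
            rw [Finset.sum_add_distrib, ← sm_eq]
            have := hV t'
            push_cast
            omega
          · rw [tr_none]; exact hx
          · omega
        · push Not at hz
          obtain ⟨i, hi, hi2⟩ := hz
          refine (dead_frozen (N := N) (s0 := s0) (κ := κ) (R := R) t c false i x hi2).1 ?_
          have h1 := h (.z, .R c false (some i)) (by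
            right
            exact ⟨i, hi, rfl⟩)
          simpa [disp_z] using h1
      | aq _ _ =>
        have h1 := h (.z, .R c true none) (by simp)
        simp only [disp_z] at h1
        exact dead_charged hR hL hH B c none t x hB hx (by omega) h1
    · push Not at hneg
      obtain ⟨j, hj⟩ := hneg
      exact dead_neg_sim hR t c s x j hj ha

theorem dead_P (hR : 0 ≤ R) {L : ℤ} (hL : 0 ≤ L) {τ : ℕ} (hH : HomeL N s0 κ R (L + 1) τ)
    {V : ℕ} (hV : ∀ t, ∑ j, N.v t j ≤ V) (K n : ℕ)
    (hK : ∀ y : J → ℤ, (∀ j, |y j - (if j = κ then (K : ℤ) else 0)| ≤ R) → ¬ N.Live R n s0 y)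
    (i : ℕ) : ∀ (B : ℕ) (c : Bool) (t : ℕ) (x : Option (Bool × J) → ℤ),
    (∀ j, |prj c x j + (if j = κ then (i : ℤ) else 0) - (if j = κ then (K : ℤ) else 0)| ≤ R) →
    sm c x + Fintype.card J * R ≤ B → L ≤ |x none| →
    τ + i + n + 2 * (B + i + n * V) + 3 ≤ t → ¬ A N s0 κ R t (.P c) x := by
  induction i with
  | zero =>
    intro B c t x hx hB hL' ht ha
    obtain ⟨t, rfl⟩ : ∃ t', t = t' + 1 := ⟨t - 1, by omega⟩
    obtain ⟨C, hC, h⟩ := ha
    cases hC with
    | go _ =>
      have h1 := h (.z, .sim c s0) (by simp)
      simp only [disp_z] at h1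
      refine dead_sim hR hL hH hV n B c s0 t x (hK _ ?_) hB hL' (by omega) h1
      intro j
      have := hx j
      simpa using this
    | ab _ =>
      have h1 := h (.z, .R c true none) (by simp)
      simp only [disp_z] at h1
      exact dead_charged hR hL hH B c none t x hB hL' (by omega) h1
  | succ i ih =>
    intro B c t x hx hB hL' ht ha
    obtain ⟨t, rfl⟩ : ∃ t', t = t' + 1 := ⟨t - 1, by omega⟩
    obtain ⟨C, hC, h⟩ := ha
    cases hC with
    | go _ =>
      have h1 := h (.inc c, .P c) (by simp)
      have hinc : prj c (x + disp N κ (.inc c)) = fun j => prj c x j + if j = κ then 1 else 0 := by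
        funext j
        simp only [prj, disp, Pi.add_apply]
        congr 1
        by_cases hj : j = κ
        · subst hj; simp
        · rw [if_neg hj, Pi.single_eq_of_ne]
          simp [hj]
      refine ih (B + 1) c t (x + disp N κ (.inc c)) ?_ ?_ ?_ (by omega) h1
      · intro j
        rw [hinc]
        have := hx j
        by_cases hj : j = κ
        · simp only [hj, if_true] at this ⊢
          push_cast at this
          rw [show prj c x κ + 1 + (i : ℤ) - K = prj c x κ + (i + 1) - K by ring]
          exact this
        · simp only [hj, if_false] at this ⊢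
          simpa using this
      · rw [sm_eq, hinc]
        simp only
        rw [Finset.sum_add_distrib, ← sm_eq]
        simp only [Finset.sum_ite_eq', Finset.mem_univ, if_true]
        push_cast
        omega
      · have : (x + disp N κ (.inc c)) none = x none := by
          simp [disp]
        rw [this]; exact hL'
    | ab _ =>
      have h1 := h (.z, .R c true none) (by simp)
      simp only [disp_z] at h1
      exact dead_charged hR hL hH B c none t x hB hL' (by omega) h1

theorem home_step (hR : 0 ≤ R) {L : ℤ} (hL : 0 ≤ L) {τ : ℕ} (hH : HomeL N s0 κ R (L + 1) τ)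
    {V : ℕ} (hV : ∀ t, ∑ j, N.v t j ≤ V) (K n : ℕ)
    (hK : ∀ y : J → ℤ, (∀ j, |y j - (if j = κ then (K : ℤ) else 0)| ≤ R) → ¬ N.Live R n s0 y) :
    ∃ τ', HomeL N s0 κ R L τ' := by
  obtain ⟨B, hB⟩ : ∃ B : ℕ, (B : ℤ) = 2 * (Fintype.card J * R) :=
    ⟨(2 * (Fintype.card J * R)).toNat, by
    have : 0 ≤ Fintype.card J * R := by positivity
    omega⟩
  refine ⟨τ + K + n + 2 * (B + K + n * V) + 3, ?_⟩
  intro c t x ht hx hL'
  refine dead_P hR hL hH hV K n hK K B c t x ?_ ?_ hL' ht
  · intro j
    have := hx (some (c, j))
    simpa [prj] using this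
  · have : sm c x ≤ Fintype.card J * R := by
      unfold sm
      calc ∑ j, x (some (c, j)) ≤ ∑ _j : J, R :=
            Finset.sum_le_sum (fun j _ => (abs_le.1 (hx (some (c, j)))).2)
        _ = Fintype.card J * R := by simp
    omega

/-- The first half: if runs near the scaled start are short then all islands die. -/
theorem game_dies (hR : 0 ≤ R) {V : ℕ} (hV : ∀ t, ∑ j, N.v t j ≤ V) (K n : ℕ)
    (hK : ∀ y : J → ℤ, (∀ j, |y j - (if j = κ then (K : ℤ) else 0)| ≤ R) → ¬ N.Live R n s0 y) :
    ∃ τ' : ℕ, ∀ t, τ' ≤ t → ∀ q x, ¬ A N s0 κ R t q x := by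
  have key : ∀ k : ℕ, (k : ℤ) ≤ R + 1 → ∃ τ, HomeL N s0 κ R (R + 1 - k) τ := by
    intro k
    induction k with
    | zero =>
      intro _
      refine ⟨0, ?_⟩
      intro c t x _ hx hL'
      have := hx none
      push_cast at hL'
      omega
    | succ k ih =>
      intro hk
      push_cast at hk
      obtain ⟨τ, hτ⟩ := ih (by omega)
      refine home_step hR (L := R + 1 - ((k + 1 : ℕ) : ℤ)) (by push_cast; omega) (τ := τ) ?_ hV K n hK
      have : R + 1 - ((k + 1 : ℕ) : ℤ) + 1 = R + 1 - k := by push_cast; ring
      rw [this]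
      exact hτ
  obtain ⟨τ, hτ⟩ := key (R + 1).toNat (by omega)
  have : R + 1 - ((R + 1).toNat : ℤ) = 0 := by omega
  rw [this] at hτ
  exact all_dead hR hτ

end game

end Pool.Agent.Helper948.Erode
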