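import Mathlib
import Pool.Agent.Helper948.Erode.Game

set_option autoImplicit false

namespace Pool.Agent.Helper948.Erode

section chain

variable {Q : Type} [Fintype Q]

/-- number of a species -/
noncomputable def ix (q : Q) : ℕ := (Fintype.equivFin Q q : ℕ) + 1

theorem ix_pos (q : Q) : 1 ≤ ix q := by unfold ix; omega
theorem ix_le (q : Q) : ix q ≤ Fintype.card Q := by
  have := (Fintype.equivFin Q q).2
  unfold ix; omega
theorem ix_inj {q q' : Q} (h : ix q = ix q') : q = q' := by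
  apply (Fintype.equivFin Q).injective
  apply Fin.ext
  unfold ix at h
  omega
theorem ix_surj (l : ℕ) (h1 : 1 ≤ l) (h2 : l ≤ Fintype.card Q) : ∃ q : Q, ix q = l := by
  refine ⟨(Fintype.equivFin Q).symm ⟨l - 1, by omega⟩, ?_⟩
  unfold ix
  rw [Equiv.apply_symm_apply]
  simp only
  omega

/-- level of a doubled species -/
noncomputable def lev (q : Q × Bool) : ℕ := if q.2 then Fintype.card Q + ix q.1 else ix q.1
/-- first potential -/
noncomputable def p1 (q : Q × Bool) : ℤ := if q.2 then Fintype.card Q + 1 else ix q.1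
/-- second potential -/
noncomputable def p2 (q : Q × Bool) : ℤ := if q.2 then ix q.1 else Fintype.card Q

theorem lev_pos (q : Q × Bool) : 1 ≤ lev q := by
  have := ix_pos q.1
  unfold lev; split_ifs <;> omega
theorem lev_le (q : Q × Bool) : lev q ≤ 2 * Fintype.card Q := by
  have := ix_le q.1
  unfold lev; split_ifs <;> omega
theorem lev_inj {q q' : Q × Bool} (h : lev q = lev q') : q = q' := by
  obtain ⟨q, b⟩ := q
  obtain ⟨q', b'⟩ := q'
  have h1 := ix_pos q
  have h2 := ix_le q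
  have h3 := ix_pos q'
  have h4 := ix_le q'
  cases b <;> cases b' <;> simp only [lev, if_true, if_false, Bool.false_eq_true] at h
  · rw [ix_inj h]
  · omega
  · omega
  · rw [ix_inj (show ix q = ix q' by omega)]
theorem lev_surj (l : ℕ) (h1 : 1 ≤ l) (h2 : l ≤ 2 * Fintype.card Q) :
    ∃ q : Q × Bool, lev q = l := by
  by_cases h : l ≤ Fintype.card Q
  · obtain ⟨q, hq⟩ := ix_surj l h1 h
    exact ⟨(q, false), by simpa [lev] using hq⟩
  · obtain ⟨q, hq⟩ := ix_surj (Q := Q) (l - Fintype.card Q) (by omega) (by omega)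
    refine ⟨(q, true), ?_⟩
    simp only [lev, if_true]
    omega

theorem p1_mono {q q' : Q × Bool} (h : lev q ≤ lev q') : p1 q ≤ p1 q' := by
  obtain ⟨q, b⟩ := q
  obtain ⟨q', b'⟩ := q'
  have h1 := ix_pos q
  have h2 := ix_le q
  have h3 := ix_pos q'
  have h4 := ix_le q'
  cases b <;> cases b' <;> simp only [lev, p1, if_true, if_false, Bool.false_eq_true] at h ⊢ <;>
    omega

theorem p2_L (q : Q) (q' : Q × Bool) : p2 q' ≤ p2 (q, false) := by
  obtain ⟨q', b'⟩ := q'
  have h4 := ix_le q'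
  cases b' <;> simp only [p2, if_true, if_false, Bool.false_eq_true] <;> omega

theorem side_R {q : Q} {q' : Q × Bool} (h : lev (q, true) ≤ lev q') : q'.2 = true := by
  obtain ⟨q', b'⟩ := q'
  have h1 := ix_pos q
  have h4 := ix_le q'
  cases b'
  · simp only [lev, if_true, if_false, Bool.false_eq_true] at h
    omega
  · rfl

theorem p1_R {q : Q} {q' : Q × Bool} (h : lev (q, true) ≤ lev q') : p1 q' = p1 (q, true) := by
  have := side_R h
  simp [p1, this]

theorem p2_R {q : Q} {q' : Q × Bool} (h : lev (q, true) ≤ lev q') : p2 (q, true) ≤ p2 q' := by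
  have := side_R h
  simp only [p2, this, if_true]
  simp only [lev, this, if_true] at h
  omega

theorem p1_bd (q : Q × Bool) : 1 ≤ p1 q ∧ p1 q ≤ Fintype.card Q + 1 := by
  have h1 := ix_pos q.1
  have h2 := ix_le q.1
  unfold p1; split_ifs <;> omega

theorem p2_bd (q : Q × Bool) : 1 ≤ p2 q ∧ p2 q ≤ Fintype.card Q := by
  have h1 := ix_pos q.1
  have h2 := ix_le q.1
  unfold p2; split_ifs <;> omega

/-- the height of a pair of potentials -/
def hgt (s : ℕ) (a b : ℤ) : ℤ := (s + 1) * a + b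

theorem hgt_lt {q q' : Q × Bool} (h : lev q < lev q') :
    hgt (Fintype.card Q) (p1 q) (p2 q) < hgt (Fintype.card Q) (p1 q') (p2 q') := by
  obtain ⟨q, b⟩ := q
  obtain ⟨q', b'⟩ := q'
  have h1 := ix_pos q
  have h2 := ix_le q
  have h3 := ix_pos q'
  have h4 := ix_le q'
  unfold hgt
  cases b <;> cases b' <;> simp only [lev, p1, p2, if_true, if_false, Bool.false_eq_true] at h ⊢
  · have : (ix q : ℤ) + 1 ≤ ix q' := by omega
    nlinarith
  · have : (ix q : ℤ) ≤ Fintype.card Q := by omega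
    have h5 : (1 : ℤ) ≤ ix q' := by omega
    nlinarith
  · omega
  · omega

variable {D G : Type} [AddCommGroup G] (cl : Q → Set (D × Q) → Prop) (disp : D → G)

/-- the recursion satisfied by the sheets -/
def RecF (B : ℕ → ℤ → ℤ → G → Q × Bool → Prop) : Prop :=
  ∀ t a b x q, B (t + 1) a b x q → ∃ q' : Q × Bool, lev q ≤ lev q' ∧ ∃ C, cl q'.1 C ∧
    ∀ o ∈ C, ∀ s, B t (a + p1 q' - p1 q) (b + p2 q' - p2 q) (x + disp o.1) (o.2, s)

variable {cl disp} {B : ℕ → ℤ → ℤ → G → Q × Bool → Prop}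

theorem alive_mono {I I' : Q → G → Prop} (h : ∀ q x, I q x → I' q x) (t : ℕ) :
    ∀ q x, Alive cl disp I t q x → Alive cl disp I' t q x := by
  induction t with
  | zero => exact h
  | succ t ih =>
    rintro q x ⟨C, hC, h1⟩
    exact ⟨C, hC, fun o ho => ih _ _ (h1 o ho)⟩

theorem sheets_L (hne : ∀ q C, cl q C → C.Nonempty) (hB : RecF cl disp B) {R : ℤ}
    (h0 : ∀ a b x q, B 0 a b x q → |a| ≤ R ∧ |b| ≤ R) (t : ℕ) :
    ∀ a b x q, B t a b x (q, false) → a ≤ R ∧ -R ≤ b := by
  induction t with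
  | zero =>
    intro a b x q h
    have := h0 a b x _ h
    rw [abs_le, abs_le] at this
    omega
  | succ t ih =>
    intro a b x q h
    obtain ⟨q', hq', C, hC, h1⟩ := hB t a b x _ h
    obtain ⟨o, ho⟩ := hne _ _ hC
    have h2 := ih _ _ _ _ (h1 o ho false)
    have h3 := p1_mono hq'
    have h4 := p2_L q q'
    omega

theorem sheets_R (hne : ∀ q C, cl q C → C.Nonempty) (hB : RecF cl disp B) {R : ℤ}
    (h0 : ∀ a b x q, B 0 a b x q → |a| ≤ R ∧ |b| ≤ R) (t : ℕ) :
    ∀ a b x q, B t a b x (q, true) → -R ≤ a ∧ b ≤ R := by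
  induction t with
  | zero =>
    intro a b x q h
    have := h0 a b x _ h
    rw [abs_le, abs_le] at this
    omega
  | succ t ih =>
    intro a b x q h
    obtain ⟨q', hq', C, hC, h1⟩ := hB t a b x _ h
    obtain ⟨o, ho⟩ := hne _ _ hC
    have h2 := ih _ _ _ _ (h1 o ho true)
    have h3 := p1_R hq'
    have h4 := p2_R hq'
    omega

theorem sheets_bd (hne : ∀ q C, cl q C → C.Nonempty) (hB : RecF cl disp B) {R : ℤ}
    (h0 : ∀ a b x q, B 0 a b x q → |a| ≤ R ∧ |b| ≤ R) (t : ℕ) :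
    ∀ a b x q, B t a b x q → |a| ≤ R + Fintype.card Q ∧ |b| ≤ R + Fintype.card Q := by
  cases t with
  | zero =>
    intro a b x q h
    have := h0 a b x _ h
    omega
  | succ t =>
    intro a b x q h
    obtain ⟨q', hq', C, hC, h1⟩ := hB t a b x _ h
    obtain ⟨o, ho⟩ := hne _ _ hC
    have h2 := sheets_L hne hB h0 t _ _ _ _ (h1 o ho false)
    have h3 := sheets_R hne hB h0 t _ _ _ _ (h1 o ho true)
    have h4 := p1_bd q
    have h5 := p1_bd q'
    have h6 := p2_bd q
    have h7 := p2_bd q'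
    rw [abs_le, abs_le]
    omega

theorem sheets_finite [Finite D] (hne : ∀ q C, cl q C → C.Nonempty) (hB : RecF cl disp B)
    (h0 : {u : ℤ × ℤ × G × (Q × Bool) | B 0 u.1 u.2.1 u.2.2.1 u.2.2.2}.Finite) (t : ℕ) :
    {u : ℤ × ℤ × G × (Q × Bool) | B t u.1 u.2.1 u.2.2.1 u.2.2.2}.Finite := by
  induction t with
  | zero => exact h0
  | succ t ih =>
    have key : {u : ℤ × ℤ × G × (Q × Bool) | B (t + 1) u.1 u.2.1 u.2.2.1 u.2.2.2} ⊆
        (fun w : (ℤ × ℤ × G × (Q × Bool)) × (Q × Bool) × (Q × Bool) × D =>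
          ((w.1.1 - p1 w.2.2.1 + p1 w.2.1, w.1.2.1 - p2 w.2.2.1 + p2 w.2.1,
            w.1.2.2.1 - disp w.2.2.2, w.2.1) : ℤ × ℤ × G × (Q × Bool))) ''
          ({u : ℤ × ℤ × G × (Q × Bool) | B t u.1 u.2.1 u.2.2.1 u.2.2.2} ×ˢ Set.univ) := by
      rintro ⟨a, b, x, q⟩ h
      obtain ⟨q', hq', C, hC, h1⟩ := hB t a b x q h
      obtain ⟨o, ho⟩ := hne _ _ hC
      refine ⟨((a + p1 q' - p1 q, b + p2 q' - p2 q, x + disp o.1, (o.2, true)), q, q', o.1),
        ⟨h1 o ho true, Set.mem_univ _⟩, ?_⟩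
      simp only [Prod.mk.injEq]
      refine ⟨by ring, by ring, by abel, trivial⟩
    exact Set.Finite.subset (Set.Finite.image _ (Set.Finite.prod ih Set.finite_univ)) key

/-- If finite sets of the multi-species system die then so do the sheets. -/
theorem sheets_die [Finite D] (hne : ∀ q C, cl q C → C.Nonempty) (hB : RecF cl disp B)
    (h0 : {u : ℤ × ℤ × G × (Q × Bool) | B 0 u.1 u.2.1 u.2.2.1 u.2.2.2}.Finite)
    (hdie : ∀ I : Q → G → Prop, {u : Q × G | I u.1 u.2}.Finite → ∃ T : ℕ, ∀ t, T ≤ t →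
      ∀ q x, ¬ Alive cl disp I t q x) :
    ∃ T : ℕ, ∀ t, T ≤ t → ∀ a b x q, ¬ B t a b x q := by
  -- bound of the sheets
  obtain ⟨R, hR⟩ : ∃ R : ℤ, ∀ a b x q, B 0 a b x q → |a| ≤ R ∧ |b| ≤ R := by
    obtain ⟨R1, h1⟩ := (h0.image (fun u => |u.1|)).bddAbove
    obtain ⟨R2, h2⟩ := (h0.image (fun u => |u.2.1|)).bddAbove
    refine ⟨max R1 R2, fun a b x q h => ⟨?_, ?_⟩⟩
    · exact le_trans (h1 ⟨(a, b, x, q), h, rfl⟩) (le_max_left _ _)
    · exact le_trans (h2 ⟨(a, b, x, q), h, rfl⟩) (le_max_right _ _)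
  have hbd := sheets_bd hne hB hR
  set s : ℕ := Fintype.card Q with hs
  -- a sheet dies once all higher sheets are dead
  have hone : ∀ a b : ℤ, (∃ T : ℕ, ∀ t, T ≤ t → ∀ a' b' x q, hgt s a b < hgt s a' b' →
      ¬ B t a' b' x q) → ∃ T : ℕ, ∀ t, T ≤ t → ∀ x q, ¬ B t a b x q := by
    rintro a b ⟨T, hT⟩
    obtain ⟨T', hT'⟩ := hdie (fun q x => ∃ c, B T a b x (q, c)) (by
      have hf := sheets_finite hne hB h0 T
      refine Set.Finite.subset (hf.image (fun u => (u.2.2.2.1, u.2.2.1))) ?_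
      rintro ⟨q, x⟩ ⟨c, hc⟩
      exact ⟨(a, b, x, (q, c)), hc, rfl⟩)
    have key : ∀ i q x c, B (T + i) a b x (q, c) →
        Alive cl disp (fun q x => ∃ c, B T a b x (q, c)) i q x := by
      intro i
      induction i with
      | zero =>
        intro q x c h
        exact ⟨c, h⟩
      | succ i ih =>
        intro q x c h
        obtain ⟨q', hq', C, hC, h1⟩ := hB (T + i) a b x (q, c) h
        have hqq : q' = (q, c) := by
          by_contra hne'
          have hlt : lev (q, c) < lev q' := lt_of_le_of_ne hq' (fun he => hne' (lev_inj he).symm)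
          have := hgt_lt hlt
          obtain ⟨o, ho⟩ := hne _ _ hC
          refine hT (T + i) (by omega) _ _ _ _ ?_ (h1 o ho true)
          unfold hgt at this ⊢
          rw [← hs] at this
          nlinarith
        subst hqq
        refine ⟨C, hC, fun o ho => ?_⟩
        have h2 := h1 o ho true
        have e1 : a + p1 (q, c) - p1 (q, c) = a := by ring
        have e2 : b + p2 (q, c) - p2 (q, c) = b := by ring
        rw [e1, e2] at h2
        exact ih _ _ _ h2
    refine ⟨T + T', fun t ht x q hBt => ?_⟩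
    obtain ⟨i, rfl⟩ : ∃ i, t = T + i := ⟨t - T, by omega⟩
    exact hT' i (by omega) q.1 x (key i q.1 x q.2 hBt)
  -- maximal height
  set H : ℤ := (s + 2) * (R + s) with hH
  have hmax : ∀ t a b x q, B t a b x q → |hgt s a b| ≤ H := by
    intro t a b x q h
    obtain ⟨h1, h2⟩ := hbd t a b x q h
    have hR0 : 0 ≤ R + s := le_trans (abs_nonneg _) h1
    rw [abs_le] at h1 h2 ⊢
    unfold hgt
    constructor <;> nlinarith
  have hall : ∀ n : ℕ, ∃ T : ℕ, ∀ t, T ≤ t → ∀ a b x q, H - n < hgt s a b → ¬ B t a b x q := by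
    intro n
    induction n with
    | zero =>
      refine ⟨0, fun t _ a b x q h1 h2 => ?_⟩
      have := hmax t a b x q h2
      rw [abs_le] at this
      push_cast at h1
      omega
    | succ n ih =>
      obtain ⟨T, hT⟩ := ih
      -- finitely many sheets
      have hfin : (Set.Icc (-(R + s)) (R + s) ×ˢ Set.Icc (-(R + s)) (R + s) :
          Set (ℤ × ℤ)).Finite := (Set.finite_Icc _ _).prod (Set.finite_Icc _ _)
      have hex : ∀ ab : ℤ × ℤ, ∃ T' : ℕ, H - n ≤ hgt s ab.1 ab.2 → ∀ t, T' ≤ t →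
          ∀ x q, ¬ B t ab.1 ab.2 x q := by
        rintro ⟨a, b⟩
        by_cases hh : H - n ≤ hgt s a b
        · obtain ⟨T', hT'⟩ := hone a b ⟨T, fun t ht a' b' x q h1 => hT t ht a' b' x q (by omega)⟩
          exact ⟨T', fun _ => hT'⟩
        · exact ⟨0, fun h => absurd h hh⟩
      choose T' hT' using hex
      obtain ⟨T'', hT''⟩ := (hfin.image T').bddAbove
      refine ⟨T'', fun t ht a b x q h1 h2 => ?_⟩
      obtain ⟨h3, h4⟩ := hbd t a b x q h2
      rw [abs_le] at h3 h4
      have h5 : T' (a, b) ≤ T'' := hT'' ⟨(a, b), ⟨h3, h4⟩, rfl⟩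
      refine hT' (a, b) ?_ t (by omega) x q h2
      push_cast at h1
      simp only
      omega
  obtain ⟨T, hT⟩ := hall (2 * H + 1).toNat
  refine ⟨T, fun t ht a b x q h => ?_⟩
  have h1 := hmax t a b x q h
  have h2 : 0 ≤ H := le_trans (abs_nonneg _) h1
  rw [abs_le] at h1
  refine hT t ht a b x q ?_ h
  have : (((2 * H + 1).toNat : ℕ) : ℤ) = 2 * H + 1 := by omega
  rw [this]
  omega

/-- If a finite set of the multi-species system survives then so does the central sheet. -/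
theorem sheet_alive
    (hB : ∀ t a b x q, (∃ C, cl q.1 C ∧ ∀ o ∈ C, ∀ s, B t a b (x + disp o.1) (o.2, s)) →
      B (t + 1) a b x q) {I : Q → G → Prop} (h0 : ∀ q x s, I q x → B 0 0 0 x (q, s)) (t : ℕ) :
    ∀ q x s, Alive cl disp I t q x → B t 0 0 x (q, s) := by
  induction t with
  | zero => exact h0
  | succ t ih =>
    rintro q x s ⟨C, hC, h⟩
    exact hB t 0 0 x (q, s) ⟨C, hC, fun o ho s' => ih _ _ _ (h o ho)⟩

end chain

end Pool.Agent.Helper948.Erode
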