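import Mathlib
import Pool.Agent.Helper948.Erode.Game

set_option autoImplicit false

namespace Pool.Agent.Helper948.Erode

section survive

variable {S J T : Type} [DecidableEq J] [Fintype J] {N : Net S J T} {s0 : S} {κ : J}

/-- every position not too far from the centre is alive -/
theorem alive_near {R V : ℤ} (hV1 : 1 ≤ V) (hV : ∀ t j, |N.v t j| ≤ V) (t : ℕ) :
    ∀ (q : Sp S J) (x : Option (Bool × J) → ℤ), (∀ i, |x i| + t * V ≤ R) →
    A N s0 κ R t q x := by
  have hd : ∀ (d : Ds J T) (i : Option (Bool × J)), |disp N κ d i| ≤ V := by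
    intro d i
    cases d with
    | z => simp [disp]; omega
    | inc c =>
      simp only [disp]
      by_cases h : i = some (c, κ)
      · subst h; simpa using hV1
      · rw [Pi.single_eq_of_ne h]; simp; omega
    | dec c j =>
      simp only [disp, Pi.neg_apply, abs_neg]
      by_cases h : i = some (c, j)
      · subst h; simpa using hV1
      · rw [Pi.single_eq_of_ne h]; simp; omega
    | e s =>
      simp only [disp]
      by_cases h : i = none
      · subst h; cases s <;> simpa using hV1
      · rw [Pi.single_eq_of_ne h]; simp; omega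
    | mv c t =>
      rcases i with _ | ⟨c', j⟩
      · simp [disp]; omega
      · simp only [disp]
        split_ifs
        · exact hV t j
        · simp; omega
  induction t with
  | zero =>
    intro q x hx i
    have := hx i
    push_cast at this
    omega
  | succ t ih =>
    intro q x hx
    have hstep : ∀ (C : Set (Ds J T × Sp S J)), ∀ o ∈ C, A N s0 κ R t o.2 (x + disp N κ o.1) := by
      intro C o _
      apply ih
      intro i
      have h1 := hx i
      have h2 := hd o.1 i
      have h3 := abs_add_le (x i) (disp N κ o.1 i)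
      rw [Pi.add_apply]
      push_cast at h1
      have h4 : ((t : ℤ) + 1) * V = t * V + V := by ring
      omega
    cases q with
    | P c => exact ⟨_, Cl.go c, hstep _⟩
    | sim c s => exact ⟨_, Cl.aq c s, hstep _⟩
    | R c m f =>
      cases m
      · exact ⟨_, Cl.done c f, hstep _⟩
      · exact ⟨_, Cl.donem c f, hstep _⟩
    | W c m f => exact ⟨_, Cl.w c m f, hstep _⟩

/-- the position with registers `y` in copy `c` and zeroes elsewhere -/
def emb (c : Bool) (y : J → ℤ) : Option (Bool × J) → ℤ
  | none => 0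
  | some (c', j) => if c' = c then y j else 0

theorem emb_zero (c : Bool) : emb c (0 : J → ℤ) = 0 := by
  funext i
  rcases i with _ | ⟨c', j⟩ <;> simp [emb]

theorem emb_tr (c : Bool) (y : J → ℤ) (t : T) :
    emb c y + disp N κ (.mv c t) = emb c (y + N.v t) := by
  funext i
  rcases i with _ | ⟨c', j⟩
  · simp [emb, disp]
  · simp only [emb, disp, Pi.add_apply]
    split_ifs <;> simp

theorem emb_dec (c : Bool) (y : J → ℤ) (j : J) :
    emb c y + disp N κ (.dec c j) = emb c (y - Pi.single j 1) := by
  funext i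
  rcases i with _ | ⟨c', j'⟩
  · simp [emb, disp]
  · simp only [emb, disp, Pi.add_apply, Pi.neg_apply, Pi.sub_apply]
    by_cases h : c' = c
    · subst h
      by_cases h' : j' = j
      · subst h'; simp; ring
      · rw [Pi.single_eq_of_ne (by simp [h']), Pi.single_eq_of_ne h']
        simp
    · rw [Pi.single_eq_of_ne (by simp [h])]
      simp [h]

theorem emb_inc (c : Bool) (K : ℤ) :
    emb c (Pi.single κ K) + disp N κ (.inc c) = emb c (Pi.single κ (K + 1)) := by
  funext i
  rcases i with _ | ⟨c', j'⟩
  · simp [emb, disp]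
  · simp only [emb, disp, Pi.add_apply]
    by_cases h : c' = c
    · subst h
      by_cases h' : j' = κ
      · subst h'; simp
      · simp [Pi.single_apply, h']
    · simp [Pi.single_apply, h]

/-- honest situations -/
inductive Hon (Good : S → (J → ℤ) → Prop) (V : ℤ) : ℤ → Sp S J → (Option (Bool × J) → ℤ) → Prop
  | P (c : Bool) (K τ : ℤ) (h0 : 0 ≤ K) (h : 2 * K + 1 ≤ τ) : Hon Good V τ (.P c)
      (emb c (Pi.single κ K))
  | sim (c : Bool) (s : S) (y : J → ℤ) (τ : ℤ) (hg : Good s y) (h : 2 * (∑ j, y j) + 1 ≤ τ) :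
      Hon Good V τ (.sim c s) (emb c y)
  | RU (c : Bool) (f : Option J) (y : J → ℤ) (τ : ℤ) (hy : ∀ j, 0 ≤ y j)
      (hf : ∀ i, f = some i → y i = 0) (h : 2 * (∑ j, y j) ≤ τ) : Hon Good V τ (.R c false f)
      (emb c y)
  | WU (c : Bool) (f : Option J) (y : J → ℤ) (τ : ℤ) (hy : ∀ j, 0 ≤ y j)
      (hf : ∀ i, f = some i → y i = 0) (h : 2 * (∑ j, y j) + 1 ≤ τ) : Hon Good V τ (.W c false f)
      (emb c y)
  | RC (c : Bool) (y : J → ℤ) (τ : ℤ) (hy : ∀ j, 0 ≤ y j)
      (h : 2 * (∑ j, y j) ≤ τ) (h' : τ ≤ 2 * (∑ j, y j) + V) : Hon Good V τ (.R c true none)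
      (emb c y)
  | WC (c : Bool) (y : J → ℤ) (τ : ℤ) (hy : ∀ j, 0 ≤ y j)
      (h : 2 * (∑ j, y j) + 1 ≤ τ) (h' : τ ≤ 2 * (∑ j, y j) + 1 + V) : Hon Good V τ (.W c true none)
      (emb c y)

theorem emb_disp_z (c : Bool) (y : J → ℤ) : emb c y + disp N κ .z = emb c y := disp_z N κ _

theorem sum_single (K : ℤ) : ∑ j, (Pi.single κ K : J → ℤ) j = K := by
  simp

theorem hon_step {Good : S → (J → ℤ) → Prop} (hI : N.Inv Good)
    (hstart : ∀ K : ℤ, 0 ≤ K → Good s0 (Pi.single κ K)) {V : ℤ} (hV0 : 0 ≤ V)
    (hV : ∀ t, ∑ j, N.v t j ≤ V) (τ : ℤ) (hτ : 0 ≤ τ) (q : Sp S J) (x : Option (Bool × J) → ℤ)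
    (h : Hon (κ := κ) Good (2 * V + 2) (τ + 1) q x) : (x = 0 ∧ τ + 1 ≤ 2 * V + 2) ∨
      ∃ C, Cl N s0 q C ∧ ∀ o ∈ C, Hon (κ := κ) Good (2 * V + 2) τ o.2 (x + disp N κ o.1) := by
  have hpos : ∀ y : J → ℤ, (∀ j, 0 ≤ y j) → y ≠ 0 → ∃ j, 0 < y j := by
    intro y hy hne
    by_contra hc
    push Not at hc
    exact hne (funext fun j => le_antisymm (hc j) (hy j))
  have hsub : ∀ (y : J → ℤ) (j : J), (∀ j, 0 ≤ y j) → 0 < y j →
      ∀ i, 0 ≤ (y - Pi.single j 1 : J → ℤ) i := by
    intro y j hy hj i
    by_cases h : i = j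
    · subst h; simp; omega
    · simp [Pi.single_eq_of_ne h, hy i]
  have hsum : ∀ (y : J → ℤ) (j : J), ∑ i, (y - Pi.single j 1 : J → ℤ) i = ∑ i, y i - 1 := by
    intro y j
    simp
  cases h with
  | P c K _ h0 h =>
    right
    by_cases hb : 2 * K + 3 ≤ τ
    · refine ⟨_, Cl.go c, ?_⟩
      intro o ho
      simp only [Set.mem_insert_iff, Set.mem_singleton_iff] at ho
      rcases ho with rfl | rfl
      · simp only [emb_inc]
        exact Hon.P c (K + 1) τ (by omega) (by omega)
      · simp only [emb_disp_z]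
        refine Hon.sim c s0 _ τ (hstart K h0) ?_
        rw [sum_single]; omega
    · refine ⟨_, Cl.ab c, ?_⟩
      have hy : ∀ j, 0 ≤ (Pi.single κ K : J → ℤ) j := hI.nonneg _ _ (hstart K h0)
      intro o ho
      simp only [Set.mem_insert_iff, Set.mem_singleton_iff] at ho
      rcases ho with rfl | rfl
      · simp only [emb_disp_z]
        refine Hon.RC c _ τ hy ?_ ?_
        · rw [sum_single]; omega
        · rw [sum_single]; omega
      · simp only [emb_disp_z]
        refine Hon.RU c none _ τ hy (by simp) ?_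
        rw [sum_single]; omega
  | sim c s y _ hg h =>
    right
    have hy := hI.nonneg _ _ hg
    by_cases hb : 2 * (∑ j, y j) + 1 + 2 * V ≤ τ
    · obtain ⟨t, rfl, hz, hg'⟩ := hI.step s y hg
      refine ⟨_, Cl.mv c t, ?_⟩
      intro o ho
      rcases ho with ho | ⟨i, hi, rfl⟩
      · simp only [Set.mem_insert_iff, Set.mem_singleton_iff] at ho
        rcases ho with rfl | rfl
        · simp only [emb_tr]
          refine Hon.sim c _ _ τ hg' ?_
          simp only [Pi.add_apply]
          rw [Finset.sum_add_distrib]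
          have := hV t
          omega
        · simp only [emb_disp_z]
          exact Hon.RU c none _ τ hy (by simp) (by omega)
      · simp only [emb_disp_z]
        refine Hon.RU c (some i) _ τ hy ?_ (by omega)
        intro i' hi'
        simp only [Option.some.injEq] at hi'
        subst hi'
        exact hz i hi
    · refine ⟨_, Cl.aq c s, ?_⟩
      intro o ho
      simp only [Set.mem_insert_iff, Set.mem_singleton_iff] at ho
      rcases ho with rfl | rfl
      · simp only [emb_disp_z]
        exact Hon.RC c _ τ hy (by omega) (by omega)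
      · simp only [emb_disp_z]
        exact Hon.RU c none _ τ hy (by simp) (by omega)
  | RU c f y _ hy hf h =>
    by_cases hy0 : y = 0
    · subst hy0
      by_cases hb : τ + 1 ≤ 2 * V + 2
      · left
        exact ⟨emb_zero c, hb⟩
      · right
        refine ⟨_, Cl.done c f, ?_⟩
        intro o ho
        have e : ∀ c', emb c (0 : J → ℤ) = emb c' (Pi.single κ 0) := by
          intro c'
          rw [Pi.single_zero, emb_zero, emb_zero]
        simp only [Set.mem_insert_iff, Set.mem_singleton_iff] at ho
        rcases ho with rfl | rfl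
        · simp only [emb_disp_z]
          rw [e true]
          exact Hon.P true 0 τ le_rfl (by omega)
        · simp only [emb_disp_z]
          rw [e false]
          exact Hon.P false 0 τ le_rfl (by omega)
    · right
      obtain ⟨j, hj⟩ := hpos y hy hy0
      have hfj : f ≠ some j := by
        intro hfj
        have := hf j hfj
        omega
      refine ⟨_, Cl.dec c false f j hfj, ?_⟩
      have hf' : ∀ i, f = some i → (y - Pi.single j 1 : J → ℤ) i = 0 := by
        intro i hi
        have hij : i ≠ j := by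
          intro h'
          subst h'
          exact hfj hi
        simp [Pi.single_eq_of_ne hij, hf i hi]
      intro o ho
      simp only [Set.mem_insert_iff, Set.mem_singleton_iff] at ho
      rcases ho with rfl | rfl
      · simp only [emb_dec]
        refine Hon.WU c f _ τ (hsub y j hy hj) hf' ?_
        rw [hsum]; omega
      · simp only [emb_dec]
        refine Hon.RU c f _ τ (hsub y j hy hj) hf' ?_
        rw [hsum]; omega
  | WU c f y _ hy hf h =>
    right
    refine ⟨_, Cl.w c false f, ?_⟩
    intro o ho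
    simp only [Set.mem_singleton_iff] at ho
    subst ho
    simp only [emb_disp_z]
    exact Hon.RU c f _ τ hy hf (by omega)
  | RC c y _ hy h h' =>
    by_cases hy0 : y = 0
    · subst hy0
      left
      refine ⟨emb_zero c, ?_⟩
      simpa using h'
    · right
      obtain ⟨j, hj⟩ := hpos y hy hy0
      refine ⟨_, Cl.dec c true none j (by simp), ?_⟩
      intro o ho
      simp only [Set.mem_insert_iff, Set.mem_singleton_iff] at ho
      rcases ho with rfl | rfl
      · simp only [emb_dec]
        refine Hon.WC c _ τ (hsub y j hy hj) ?_ ?_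
        · rw [hsum]; omega
        · rw [hsum]; omega
      · simp only [emb_dec]
        refine Hon.WU c none _ τ (hsub y j hy hj) (by simp) ?_
        rw [hsum]; omega
  | WC c y _ hy h h' =>
    right
    refine ⟨_, Cl.w c true none, ?_⟩
    intro o ho
    simp only [Set.mem_singleton_iff] at ho
    subst ho
    simp only [emb_disp_z]
    exact Hon.RC c _ τ hy (by omega) (by omega)

theorem hon_zero {Good : S → (J → ℤ) → Prop} {V : ℤ} (q : Sp S J)
    (x : Option (Bool × J) → ℤ) (h : Hon (κ := κ) Good V 0 q x) (hI : N.Inv Good) : x = 0 := by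
  have hz : ∀ (y : J → ℤ), (∀ j, 0 ≤ y j) → 2 * ∑ j, y j ≤ 0 → y = 0 := by
    intro y hy hs
    have hs0 : ∑ j, y j = 0 := le_antisymm (by omega) (Finset.sum_nonneg fun j _ => hy j)
    funext j
    exact (Finset.sum_eq_zero_iff_of_nonneg (fun j _ => hy j)).1 hs0 j (Finset.mem_univ j)
  have hs : ∀ (y : J → ℤ), (∀ j, 0 ≤ y j) → 0 ≤ ∑ j, y j := fun y hy =>
    Finset.sum_nonneg fun j _ => hy j
  cases h with
  | P c K _ h0 h => omega
  | sim c s y _ hg h =>
    have := hs y (hI.nonneg _ _ hg)
    omega
  | RU c f y _ hy hf h => rw [hz y hy h, emb_zero]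
  | WU c f y _ hy hf h =>
    have := hs y hy
    omega
  | RC c y _ hy h h' => rw [hz y hy h, emb_zero]
  | WC c y _ hy h h' =>
    have := hs y hy
    omega

/-- The second half: honest runs let an island survive. -/
theorem game_survives {Good : S → (J → ℤ) → Prop} (hI : N.Inv Good)
    (hstart : ∀ K : ℤ, 0 ≤ K → Good s0 (Pi.single κ K)) {V : ℤ} (hV0 : 0 ≤ V)
    (hV : ∀ t, ∑ j, N.v t j ≤ V) {V1 : ℤ} (hV1 : 1 ≤ V1) (hV1' : ∀ t j, |N.v t j| ≤ V1) :
    ∃ R : ℤ, ∀ t : ℕ, 1 ≤ t → A N s0 κ R t (.P true) 0 := by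
  refine ⟨(2 * V + 2) * V1, ?_⟩
  have hnear : ∀ (t : ℕ) (q : Sp S J), (t : ℤ) ≤ 2 * V + 2 →
      A N s0 κ ((2 * V + 2) * V1) t q 0 := by
    intro t q ht
    apply alive_near hV1 hV1'
    intro i
    simp only [Pi.zero_apply, abs_zero, zero_add]
    exact mul_le_mul_of_nonneg_right ht (by omega)
  have key : ∀ (t : ℕ) (q : Sp S J) (x : Option (Bool × J) → ℤ),
      Hon (κ := κ) Good (2 * V + 2) t q x → A N s0 κ ((2 * V + 2) * V1) t q x := by
    intro t
    induction t with
    | zero =>
      intro q x h
      have := hon_zero q x (by simpa using h) hI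
      subst this
      exact hnear 0 q (by push_cast; omega)
    | succ t ih =>
      intro q x h
      push_cast at h
      rcases hon_step (s0 := s0) hI hstart hV0 hV t (by omega) q x h with ⟨rfl, h2⟩ | ⟨C, hC, h2⟩
      · exact hnear (t + 1) q (by push_cast; omega)
      · exact ⟨C, hC, fun o ho => ih o.2 _ (h2 o ho)⟩
  intro t ht
  have := key t (.P true) _ (Hon.P true 0 t le_rfl (by omega))
  rwa [Pi.single_zero, emb_zero] at this

end survive

end Pool.Agent.Helper948.Erode
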